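import Pool.Agent.Q323.OpenPack.Mem
import Pool.Agent.Q323.OpenPack.Red

/-!
# Recognizing graphs with all maximal open packings of the same size is coNP-complete

The decision problem has as input a finite simple graph, given by an adjacency matrix
`M : List (List Bool)` (`matGraph M` is the graph).

Reduction from the complement of 3SAT.  One side of a bipartite graph consists of two literals and
one further vertex `z i` for each variable `i`, of one vertex for each clause, and of one further
vertex `c 0`; the other side consists of vertices that describe hyperedges on the first side: all
clause vertices with `c 0`, the three vertices of a variable, each literal together with `c 0` and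
the clauses that contain it, `{c 0}`, and `{z i}`.  All maximal open packings have `2n + 2` elements,
except for those with `2n + 1` elements, which come from satisfying assignments.
-/

set_option autoImplicit false

namespace Pool.Agent.Results.MP_563097_lc.CoNPComplete

open Pool.Agent.NPC Pool.Agent.H622R2 Pool.Agent.Q323.OpenPack

/-- **Deciding whether all maximal open packings of a graph have the same size is
coNP-complete** under polynomial-time many-one reductions. -/
theorem result : InCoNPP (fun M : List (List Bool) => EqualOpenPackings (matGraph M)) ∧
    CoNPHardP (fun M : List (List Bool) => EqualOpenPackings (matGraph M)) :=
  ⟨inCoNP, hardI_not.toCoNPHardP⟩

end Pool.Agent.Results.MP_563097_lc.CoNPComplete
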